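import Pool.Agent.W15.QTC1
import Pool.Agent.W486.QTC2
import Pool.Agent.W513.QTCORE
import Pool.Agent.W356.QTCRS
import Pool.Agent.W311.QTDOM
import Pool.Agent.W140.QTEPS
import Pool.Agent.W863.QTFAT
import Pool.Agent.W371.QTFLIP
import Pool.Agent.W654.QTFSUM
import Pool.Agent.W554.QTGRD
import Pool.Agent.W917.QTGRIDW
import Pool.Agent.W308.QT.IRS
import Pool.Agent.W692.QTKERB
import Pool.Agent.W696.QTKERG
import Pool.Agent.W366.QTKH
import Pool.Agent.W641.QTLAP
import Pool.Agent.W54.QTLAPC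
import Pool.Agent.W381.QTLIM
import Pool.Agent.W753.QT.QTLIMQ
import Pool.Agent.W304.QT.QTM1
import Pool.Agent.W155.QTM2
import Pool.Agent.W589.QT.QTM3
import Pool.Agent.W356.QTMARG
import Pool.Agent.W335.QTMARK
import Pool.Agent.W315.QTMEAS
import Pool.Agent.W933.QTMIX
import Pool.Agent.W494.QT.MOM
import Pool.Agent.W131.QTNUM
import Pool.Agent.W882.QTPZ
import Pool.Agent.W804.QTQF
import Pool.Agent.W347.QTREN
import Pool.Agent.W797.QTRENB
import Pool.Agent.W503.QTRENT
import Pool.Agent.W271.QTRUN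
import Pool.Agent.W214.QTRUNA
import Pool.Agent.W397.QTRUNB
import Pool.Agent.W303.QTSOLVE
import Pool.Agent.W236.QTSPL
import Pool.Agent.W103.QTSTEP
import Pool.Agent.W577.QTSUML
import Pool.Agent.W177.QTSUPA
import Pool.Agent.W369.QTTH
import Pool.Agent.W823.QT.Fin

/-!
# The quenched random walk among mobile traps is not super-diffusive in dimension `d ≥ 5`

Let `X` be a continuous time simple symmetric random walk on `ℤ^d` (jump rate `κ`) among a Poisson
system of independent moving traps (density `ν`, jump rate `ρ`), killed at rate `γ` per trap at its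
site. We prove: for every `d ≥ 5` and all `κ, ρ, ν > 0` there is `γ₀ > 0` such that for
`0 < γ ≤ γ₀` the quenched path measure is not super-diffusive: for `M² ≥ 12 κ` and every `t ≥ 1`,
with probability at least `1/128` over the traps, `P^ξ_{γ,t}(|X(t)| ≤ M √t) ≥ 1/512`; hence, with
probability at least `1/128`, this happens for arbitrarily large `t`.

Idea of the proof (second moment method). On a time grid, averaging over the traps, a path has
weight `exp(-ν C(x))`, where `C(x)` is the expected number (density one) of traps which kill. With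
`q_{st}(x)` the expected number of traps with consecutive hits at the times `s < t`,
`C(x) = const - ∑ q_{st}(x)` and `q_{st}(x) ≤ (1-e)² p_{t-s}(x_t - x_s)`. Expand
`exp(ν q_{st}) = 1 + η_{st}` in sets of arcs. Given the arcs, the steps not covered by an arc are
free, and the arcs are dominated by independent arcs of intensity `O(γ² |t-s|^{-d/2})`. A renewal
argument controls the free steps when `d ≥ 5`. This gives a second moment bound for the position,
and by Khas'minskii's lemma a bounded exponential moment of the interaction of two paths, so that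
`E[Z²] ≤ 4 (E Z)²` for the quenched survival probability `Z`. The Paley-Zygmund inequality
concludes.
-/

set_option autoImplicit false

namespace Pool.Agent.Results.MP_26aa9e_pr.NotSuperDiffusive

open MeasureTheory ProbabilityTheory Filter Topology
open scoped ENNReal NNReal
open Pool.Agent.W845.Traps Pool.Agent.W823.QT

universe u v

/-- In every dimension `d ≥ 5` and for all jump rates `κ, ρ > 0` and every density `ν > 0`, for all
small killing rates `γ > 0`: for every walk `X` (on `Ω'`) and every independent system of traps (on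
`Ω`), with probability at least `1/128` over the traps the quenched path measure gives mass at least
`1/512` to `|X(t)| ≤ M √t` (`M² ≥ 12 κ`), for each `t ≥ 1` and also for arbitrarily large `t`; in
particular it is not true that `X` is super-diffusive under the quenched path measure for almost
every realisation of the traps. -/
theorem result {d : ℕ} (hd : 5 ≤ d) {κ ρ ν : ℝ≥0} (hκ : 0 < κ) (hρ : 0 < ρ) (hν : 0 < ν) :
    ∃ γ₀ : ℝ≥0, 0 < γ₀ ∧ ∀ γ : ℝ≥0, 0 < γ → γ ≤ γ₀ →
      ∀ (Ω : Type u) [MeasurableSpace Ω] (P : Measure Ω) [IsProbabilityMeasure P]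
        (Ω' : Type v) [MeasurableSpace Ω'] (P' : Measure Ω') [IsProbabilityMeasure P']
        (X : ℝ≥0 → Ω' → Fin d → ℤ) (N : (Fin d → ℤ) → Ω → ℕ)
        (Y : (Fin d → ℤ) → ℕ → ℝ≥0 → Ω → Fin d → ℤ),
        IsWalk P' κ X → TrapSystem P ρ ν N Y →
        (∀ M : ℝ, 0 < M → 12 * (κ : ℝ) ≤ M ^ 2 →
          (∀ t : ℝ≥0, 1 ≤ t → 1 / 128 ≤
            P {ω | 1 / 512 ≤ quenchedProb γ P' X N Y t (diffusiveBall X M t) ω}) ∧
          1 / 128 ≤ P {ω | ∃ᶠ t : ℝ≥0 in atTop,
            1 / 512 ≤ quenchedProb γ P' X N Y t (diffusiveBall X M t) ω}) ∧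
        ¬ ∀ᵐ ω ∂P, SuperDiffusive γ P' X N Y ω := by
  have cMEAS : MEAS_T := Pool.Agent.W315.QTMEAS.main 
  have cMARK : MARK_T := Pool.Agent.W335.QTMARK.main 
  have cFLIP : FLIP_T := Pool.Agent.W371.QTFLIP.main 
  have cQF : QF_T := Pool.Agent.W804.QTQF.main cMEAS cFLIP
  have cC1 : C1_T := Pool.Agent.W15.QTC1.main cMEAS cMARK
  have cC2 : C2_T := Pool.Agent.W486.QTC2.main cMEAS cMARK cFLIP
  have cDOM : DOM_T := Pool.Agent.W311.QTDOM.main 
  have cRENT : RENT_T := Pool.Agent.W503.QTRENT.main 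
  have cREN : REN_T := Pool.Agent.W347.QTREN.main cRENT
  have cRENB : RENB_T := Pool.Agent.W797.QTRENB.main cMEAS cMARK cFLIP cREN
  have cSOLVE : SOLVE_T := Pool.Agent.W303.QTSOLVE.main 
  have cRUN : RUN_T := Pool.Agent.W271.QTRUN.main 
  have cRUNB : RUNB_T := Pool.Agent.W397.QTRUNB.main 
  have cSPL : SPL_T := Pool.Agent.W236.QTSPL.main 
  have cCRS : CRS_T := Pool.Agent.W356.QTCRS.main 
  have cIRS : IRS_T := Pool.Agent.W308.QTIRS.main cRENT cRUN cRUNB cSPL cCRS
  have cSUPA : SUPA_T := Pool.Agent.W177.QTSUPA.main cMEAS cMARK cSPL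
  have cM2 : M2_T := Pool.Agent.W155.QTM2.main cMEAS cDOM cRENB cSOLVE cIRS cSUPA
  have cEPS : EPS_T := Pool.Agent.W140.QTEPS.main 
  have cKH : KH_T := Pool.Agent.W366.QTKH.main cMEAS cMARK cSPL cCRS cSUPA
  have cMIX : MIX_T := Pool.Agent.W933.QTMIX.main 
  have cSUML : SUML_T := Pool.Agent.W577.QTSUML.main 
  have cM1 : M1_T := Pool.Agent.W304.QTM1.main cMEAS cMIX cSUML cDOM
  have cMARG : MARG_T := Pool.Agent.W356.QTMARG.main 
  have cRUNA : RUNA_T := Pool.Agent.W214.QTRUNA.main 
  have cFSUM : FSUM_T := Pool.Agent.W654.QTFSUM.main cMARG cRUN cRUNA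
  have cTH : TH_T := Pool.Agent.W369.QTTH.main cEPS cM1 cFSUM cSUPA
  have cM3 : M3_T := Pool.Agent.W589.QT.main cEPS cKH cTH cMEAS
  have cCORE : CORE_T := Pool.Agent.W513.QTCORE.main cMEAS cMARK cQF cC1 cC2 cM2 cM3 cEPS cSUPA
  have cGRIDW : GRIDW_T.{u} := Pool.Agent.W917.QTGRIDW.main
  have cGRIDWv : GRIDW_T.{v} := Pool.Agent.W917.QTGRIDW.main
  have cLAP : LAP_T.{u} := Pool.Agent.W641.QTLAP.main cGRIDW
  have cLAPC : LAPC_T.{u} := Pool.Agent.W54.QTLAPC.main cLAP cMEAS
  have cGRD : GRD_T.{u, v} := Pool.Agent.W554.QTGRD.main cGRIDWv cLAPC cMEAS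
  have cLIM : LIM_T.{u, v} := Pool.Agent.W381.QTLIM.main 
  have cLIMQ : LIMQ_T.{u, v} := Pool.Agent.W753.QTLIMQ.main cLIM cGRD
  have cKERB : KERB_T := Pool.Agent.W692.QTKERB.main 
  have cSTEP : STEP_T := Pool.Agent.W103.QTSTEP.main cSUML
  have cKERG : KERG_T := Pool.Agent.W696.QTKERG.main cKERB cSTEP cMEAS
  have cNUM : NUM_T := Pool.Agent.W131.QTNUM.main 
  have cMOM : MOM_T.{u, v} := Pool.Agent.W494.QT.main cCORE cGRD cLIMQ cKERG cSTEP cNUM
  have cPZ : PZ_T.{u} := Pool.Agent.W882.QTPZ.main 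
  have cFAT : FAT_T.{u} := Pool.Agent.W863.QTFAT.main 
  exact final cMOM cLIMQ cPZ cFAT hd hκ hρ hν

end Pool.Agent.Results.MP_26aa9e_pr.NotSuperDiffusive
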